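import Mathlib

/-!
# MP_254ca6_gt, Q1: the Comfort–Frolik preorder

`≤_CF ⊆ ≤_C` is proper; if `u` is free and `u ≤_CF v` then `v ≤_RF u`; consequently the
asserted inclusion `≤_RF ⊆ ≤_CF` fails and `≤_CF ≠ ≤_RF`.
-/

open Set Filter Topology

namespace Pool.Agent.Results.MP_254ca6_gt.ComfortFrolik

universe w

section defs

variable (X : Type w) [TopologicalSpace X]

/-- `X` is `u`-compact: every sequence in `X` has a `u`-limit in `X`. -/
def UCompact (u : Ultrafilter ℕ) : Prop := ∀ f : ℕ → X, ∃ x : X, Tendsto f u (𝓝 x)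

/-- `X` is discretely `u`-compact: every injective sequence in `X` with discrete range has a
`u`-limit in `X`. -/
def DUCompact (u : Ultrafilter ℕ) : Prop :=
  ∀ f : ℕ → X, Function.Injective f → DiscreteTopology (range f) → ∃ x : X, Tendsto f u (𝓝 x)

end defs

/-- The Comfort preorder. -/
def LeC (u v : Ultrafilter ℕ) : Prop :=
  ∀ (X : Type w) [TopologicalSpace X] [T35Space X], UCompact X v → UCompact X u

/-- The Comfort–Frolik preorder. -/
def LeCF (u v : Ultrafilter ℕ) : Prop :=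
  ∀ (X : Type w) [TopologicalSpace X] [T35Space X], DUCompact X v → DUCompact X u

/-- The Rudin–Frolik preorder: `v` is the `u`-limit of an injective sequence of ultrafilters with
discrete range. -/
def LeRF (u v : Ultrafilter ℕ) : Prop :=
  ∃ f : ℕ → Ultrafilter ℕ, Function.Injective f ∧ DiscreteTopology (range f) ∧
    Tendsto f u (𝓝 v)

/-! ### Basic facts on `βω` -/

theorem isOpen_mem (A : Set ℕ) : IsOpen {w : Ultrafilter ℕ | A ∈ w} := ultrafilter_isOpen_basic A

theorem tendsto_iff {u v : Ultrafilter ℕ} {f : ℕ → Ultrafilter ℕ} :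
    Tendsto f u (𝓝 v) ↔ ∀ A ∈ v, {n | A ∈ f n} ∈ u := by
  constructor
  · intro h A hA
    exact h ((isOpen_mem A).mem_nhds hA)
  · intro h
    intro O hO
    obtain ⟨_, ⟨A, rfl⟩, hA, hAO⟩ := ultrafilterBasis_is_basis.mem_nhds_iff.1 hO
    exact mem_of_superset (h A hA) fun n hn => hAO hn

/-- A discrete injective sequence of ultrafilters is separated by pairwise disjoint sets. -/
theorem exists_disjoint {f : ℕ → Ultrafilter ℕ} (hf : Function.Injective f)
    (hd : DiscreteTopology (range f)) :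
    ∃ A : ℕ → Set ℕ, (∀ n, A n ∈ f n) ∧ ∀ m n, m ≠ n → Disjoint (A m) (A n) := by
  have h1 : ∀ n, ∃ B : Set ℕ, B ∈ f n ∧ ∀ m, m ≠ n → B ∉ f m := by
    intro n
    have hop : IsOpen ({⟨f n, n, rfl⟩} : Set (range f)) := isOpen_discrete _
    obtain ⟨O, hO, hOeq⟩ := isOpen_induced_iff.1 hop
    have hmem : f n ∈ O := by
      have : (⟨f n, n, rfl⟩ : range f) ∈ Subtype.val ⁻¹' O := by
        rw [hOeq]
        rfl
      exact this
    obtain ⟨_, ⟨B, rfl⟩, hB, hBO⟩ := ultrafilterBasis_is_basis.mem_nhds_iff.1 (hO.mem_nhds hmem)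
    refine ⟨B, hB, fun m hm hBm => hm ?_⟩
    have h2 : (⟨f m, m, rfl⟩ : range f) ∈ Subtype.val ⁻¹' O := hBO hBm
    rw [hOeq] at h2
    exact hf (congrArg Subtype.val h2)
  choose B hB hB' using h1
  refine ⟨fun n => B n \ ⋃ m ∈ Iio n, B m, fun n => ?_, ?_⟩
  · have h2 : (⋂ m ∈ Iio n, (B m)ᶜ) ∈ (f n : Filter ℕ) := by
      refine (Filter.biInter_mem (Set.finite_Iio n)).2 ?_
      intro m hm
      exact Ultrafilter.compl_mem_iff_notMem.2 (hB' m n (ne_of_gt hm))
    refine mem_of_superset (inter_mem (hB n) h2) ?_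
    rintro x ⟨hx1, hx2⟩
    refine ⟨hx1, fun hx => ?_⟩
    obtain ⟨m, hm, hxm⟩ := mem_iUnion₂.1 hx
    exact (mem_iInter₂.1 hx2 m hm) hxm
  · have key : ∀ m n, m < n → Disjoint (B m \ ⋃ k ∈ Iio m, B k) (B n \ ⋃ k ∈ Iio n, B k) := by
      intro m n hmn
      rw [Set.disjoint_left]
      rintro x ⟨hx1, -⟩ ⟨-, hx2⟩
      exact hx2 (mem_biUnion hmn hx1)
    intro m n hmn
    rcases lt_or_gt_of_ne hmn with h | h
    · exact key m n h
    · exact (key n m h).symm

/-- `≤_RF` is contained in the Rudin–Keisler order. -/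
theorem rk_of_rf {u v : Ultrafilter ℕ} (h : LeRF u v) : ∃ g : ℕ → ℕ, v.map g = u := by
  classical
  obtain ⟨f, hf, hd, ht⟩ := h
  obtain ⟨A, hA, hdis⟩ := exists_disjoint hf hd
  refine ⟨fun k => if h : ∃ n, k ∈ A n then h.choose else 0, ?_⟩
  rw [tendsto_iff] at ht
  refine (Ultrafilter.eq_of_le ?_).symm
  intro C hC
  have hC' : (fun k => if h : ∃ n, k ∈ A n then h.choose else 0) ⁻¹' C ∈ v := hC
  have h1 := ht _ hC'
  refine mem_of_superset h1 ?_
  intro n hn
  by_contra hnC
  have h2 : (fun k => if h : ∃ n, k ∈ A n then h.choose else 0) ⁻¹' C ∩ A n = ∅ := by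
    ext k
    simp only [mem_inter_iff, mem_preimage, mem_empty_iff_false, iff_false, not_and]
    intro hk hkA
    have hex : ∃ n, k ∈ A n := ⟨n, hkA⟩
    rw [dif_pos hex] at hk
    have h3 : hex.choose = n := by
      by_contra hne
      exact Set.disjoint_left.1 (hdis _ _ hne) hex.choose_spec hkA
    rw [h3] at hk
    exact hnC hk
  have h4 := inter_mem hn (hA n)
  rw [h2] at h4
  exact (f n).neBot.ne (empty_mem_iff_bot.1 h4)

/-! ### A map with `g(u) = u` is the identity on a set of `u` -/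

theorem iterate_lt {g : ℕ → ℕ} (hg : ∀ n, n < g n) (x : ℕ) : StrictMono fun j => g^[j] x := by
  refine strictMono_nat_of_lt_succ fun j => ?_
  rw [Function.iterate_succ_apply']
  exact hg _

theorem parity {g : ℕ → ℕ} (hg : ∀ n, n < g n) {n r a b a' b' : ℕ} (h : g^[a] n = g^[b] r)
    (h' : g^[a'] n = g^[b'] r) : (a + b) % 2 = (a' + b') % 2 := by
  have key : ∀ a b a' b' : ℕ, a ≤ a' → g^[a] n = g^[b] r → g^[a'] n = g^[b'] r →
      (a + b) % 2 = (a' + b') % 2 := by
    intro a b a' b' haa h h'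
    obtain ⟨d, rfl⟩ := Nat.exists_eq_add_of_le haa
    have h1 : g^[d + b] r = g^[b'] r := by
      rw [← h', Function.iterate_add_apply, ← h, ← Function.iterate_add_apply, Nat.add_comm d a]
    have h2 : d + b = b' := (iterate_lt hg r).injective h1
    omega
  rcases le_total a a' with h1 | h1
  · exact key a b a' b' h1 h h'
  · exact (key a' b' a b h1 h' h).symm

/-- 2-colouring for inflationary maps -/
theorem exists_color {g : ℕ → ℕ} (hg : ∀ n, n < g n) : ∃ c : ℕ → ℕ, ∀ n, c n < 2 ∧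
    c (g n) ≠ c n := by
  classical
  let E : ℕ → ℕ → Prop := fun n m => ∃ a b, g^[a] n = g^[b] m
  have hE1 : ∀ n, E n (g n) := fun n => ⟨1, 0, rfl⟩
  have hEs : ∀ {n m}, E n m → E m n := by
    rintro n m ⟨a, b, h⟩
    exact ⟨b, a, h.symm⟩
  have hEt : ∀ {n m k}, E n m → E m k → E n k := by
    rintro n m k ⟨a, b, h⟩ ⟨c, d, h'⟩
    refine ⟨c + a, b + d, ?_⟩
    rw [Function.iterate_add_apply, h, ← Function.iterate_add_apply, Nat.add_comm c b,
      Function.iterate_add_apply, h', ← Function.iterate_add_apply]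
  let st : Setoid ℕ := ⟨E, fun n => ⟨0, 0, rfl⟩, hEs, hEt⟩
  let r : ℕ → ℕ := fun n => (Quotient.mk st n).out
  have hr : ∀ n, E n (r n) := fun n => hEs (Quotient.mk_out (s := st) n)
  have hrg : ∀ n, r (g n) = r n := by
    intro n
    have : Quotient.mk st (g n) = Quotient.mk st n := Quotient.sound (s := st) (hEs (hE1 n))
    change (Quotient.mk st (g n)).out = (Quotient.mk st n).out
    rw [this]
  choose a b hab using hr
  refine ⟨fun n => (a n + b n) % 2, fun n => ⟨Nat.mod_lt _ (by norm_num), fun h => ?_⟩⟩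
  have h1 : g^[a (g n) + 1] n = g^[b (g n)] (r n) := by
    rw [Function.iterate_add_apply, Function.iterate_one, hab (g n), hrg n]
  have h2 := parity hg (hab n) h1
  have h' : (a (g n) + b (g n)) % 2 = (a n + b n) % 2 := h
  omega

/-- 2-colouring for regressive maps -/
theorem exists_color' (g : ℕ → ℕ) : ∃ c : ℕ → ℕ, ∀ n, g n < n → c (g n) % 2 ≠ c n % 2 := by
  classical
  let F : ∀ n : ℕ, (∀ m : ℕ, m < n → ℕ) → ℕ := fun n rec =>
    if h : g n < n then rec (g n) h + 1 else 0
  let c : ℕ → ℕ := (Nat.lt_wfRel.wf).fix F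
  have hc : ∀ n, c n = if g n < n then c (g n) + 1 else 0 := by
    intro n
    have h := (Nat.lt_wfRel.wf).fix_eq F n
    have h' : c n = F n (fun m _ => c m) := h
    rw [h']
    by_cases hn : g n < n
    · simp [F, hn]
    · simp [F, hn]
  refine ⟨c, fun n hn h => ?_⟩
  have := hc n
  rw [if_pos hn] at this
  omega

/-- An ultrafilter cannot live on a set on which `g` changes the colour. -/
theorem no_color {u : Ultrafilter ℕ} {g : ℕ → ℕ} (hu : u.map g = u) {D : Set ℕ} (hD : D ∈ u)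
    {c : ℕ → ℕ} (hc : ∀ n ∈ D, c (g n) % 2 ≠ c n % 2) : False := by
  have key : ∀ i < 2, {n | c n % 2 = i} ∈ u → False := by
    intro i _ hi
    have h1 : {n | c n % 2 = i} ∈ u.map g := by
      rw [hu]
      exact hi
    have h2 : g ⁻¹' {n | c n % 2 = i} ∈ u := h1
    have h3 := inter_mem (inter_mem hD hi) h2
    have h4 : D ∩ {n | c n % 2 = i} ∩ g ⁻¹' {n | c n % 2 = i} = ∅ := by
      ext n
      simp only [mem_inter_iff, mem_preimage, mem_ofPred_eq, mem_empty_iff_false, iff_false]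
      rintro ⟨⟨h5, h6⟩, h7⟩
      exact hc n h5 (h7.trans h6.symm)
    rw [h4] at h3
    exact u.neBot.ne (empty_mem_iff_bot.1 h3)
  rcases Ultrafilter.mem_or_compl_mem u {n | c n % 2 = 0} with h | h
  · exact key 0 (by norm_num) h
  · refine key 1 (by norm_num) (mem_of_superset h ?_)
    intro n hn
    have h1 : ¬ c n % 2 = 0 := hn
    change c n % 2 = 1
    omega

theorem fix_of_map_eq {u : Ultrafilter ℕ} {g : ℕ → ℕ} (hu : u.map g = u) :
    {n | g n = n} ∈ u := by
  classical
  rcases Ultrafilter.mem_or_compl_mem u {n | g n = n} with h | h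
  · exact h
  · exfalso
    rcases Ultrafilter.mem_or_compl_mem u {n | g n < n} with h1 | h1
    · obtain ⟨c, hc⟩ := exists_color' g
      exact no_color hu h1 hc
    · let g' : ℕ → ℕ := fun n => if n < g n then g n else n + 1
      have hg' : ∀ n, n < g' n := by
        intro n
        by_cases hn : n < g n
        · simp only [g', hn, if_true]
        · simp only [g', hn, if_false]
          omega
      obtain ⟨c, hc⟩ := exists_color hg'
      refine no_color hu (inter_mem h h1) (c := c) ?_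
      rintro n ⟨h2, h3⟩
      have h2' : ¬ g n = n := h2
      have h3' : ¬ g n < n := h3
      have h4 : g' n = g n := by
        simp only [g']
        rw [if_pos (by omega)]
      have h5 := (hc n).2
      have h6 := (hc n).1
      have h7 := (hc (g' n)).1
      rw [h4] at h5 h7
      omega

/-! ### The main facts -/

/-- The space of principal ultrafilters together with the `≤_RF`-successors of `v`. -/
def Sv (v : Ultrafilter ℕ) : Set (Ultrafilter ℕ) := {x | (∃ n, x = pure n) ∨ LeRF v x}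

theorem ducompact_Sv (v : Ultrafilter ℕ) : DUCompact (ULift.{w} (Sv v)) v := by
  intro f hf hd
  let g : ℕ → Ultrafilter ℕ := fun n => (f n).down.1
  have hemb : IsEmbedding (fun x : ULift.{w} (Sv v) => x.down.1) :=
    IsEmbedding.subtypeVal.comp Homeomorph.ulift.isEmbedding
  have hg : Function.Injective g := hemb.injective.comp hf
  have hgd : DiscreteTopology (range g) := by
    have h1 : range g = (fun x : ULift.{w} (Sv v) => x.down.1) '' range f := by
      rw [← range_comp]
      rfl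
    rw [h1]
    have e : (range f) ≃ₜ ((fun x : ULift.{w} (Sv v) => x.down.1) '' range f) :=
      hemb.homeomorphImage (range f)
    exact e.symm.isEmbedding.discreteTopology
  obtain ⟨x, -, hx⟩ := isCompact_univ.ultrafilter_le_nhds (v.map g) (by simp)
  have hx' : Tendsto g v (𝓝 x) := hx
  have hrf : LeRF v x := ⟨g, hg, hgd, hx'⟩
  refine ⟨⟨⟨x, Or.inr hrf⟩⟩, ?_⟩
  rw [hemb.isInducing.tendsto_nhds_iff]
  exact hx'

theorem rf_of_cf {u v : Ultrafilter ℕ} (hu : ∀ n, u ≠ pure n) (h : LeCF.{w} u v) :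
    LeRF v u := by
  have hT : T35Space (ULift.{w} (Sv v)) := (Homeomorph.ulift.isEmbedding).t35Space
  have h1 : DUCompact (ULift.{w} (Sv v)) u := h (ULift.{w} (Sv v)) (ducompact_Sv v)
  let f : ℕ → ULift.{w} (Sv v) := fun n => ⟨⟨pure n, Or.inl ⟨n, rfl⟩⟩⟩
  have hemb : IsEmbedding (fun x : ULift.{w} (Sv v) => x.down.1) :=
    IsEmbedding.subtypeVal.comp Homeomorph.ulift.isEmbedding
  have hf : Function.Injective f := by
    intro m n hmn
    have : (pure m : Ultrafilter ℕ) = pure n := congrArg (fun x => x.down.1) hmn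
    exact Ultrafilter.pure_injective this
  have hd : DiscreteTopology (range f) := by
    rw [discreteTopology_iff_isOpen_singleton]
    rintro ⟨_, n, rfl⟩
    refine isOpen_induced_iff.2 ⟨(fun x : ULift.{w} (Sv v) => x.down.1) ⁻¹'
      {w : Ultrafilter ℕ | {n} ∈ w}, (isOpen_mem {n}).preimage hemb.continuous, ?_⟩
    ext ⟨_, m, rfl⟩
    simp only [mem_preimage, mem_ofPred_eq, mem_singleton_iff, Subtype.mk.injEq]
    constructor
    · intro hm
      have : m ∈ ({n} : Set ℕ) := hm
      rw [mem_singleton_iff.1 this]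
    · intro hm
      have hmn : m = n := hf hm
      rw [hmn]
      exact mem_singleton n
  obtain ⟨x, hx⟩ := h1 f hf hd
  rw [hemb.isInducing.tendsto_nhds_iff] at hx
  have hx' : Tendsto (pure : ℕ → Ultrafilter ℕ) u (𝓝 x.down.1) := hx
  have h2 : Tendsto (pure : ℕ → Ultrafilter ℕ) u (𝓝 u) := by
    rw [tendsto_iff]
    intro A hA
    exact mem_of_superset hA fun n hn => hn
  have h3 : x.down.1 = u := tendsto_nhds_unique hx' h2
  rcases x.down.2 with ⟨n, hn⟩ | h4
  · exact absurd (h3.symm.trans hn) (hu n)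
  · rw [h3] at h4
    exact h4

/-- `≤_CF ⊆ ≤_C` -/
theorem c_of_cf {u v : Ultrafilter ℕ} (h : LeCF.{w} u v) : LeC.{w} u v := by
  intro X _ _ hX f
  have hT : T35Space (ULift.{w} (Ultrafilter ℕ)) := (Homeomorph.ulift.isEmbedding).t35Space
  have h1 : DUCompact (X × ULift.{w} (Ultrafilter ℕ)) v := by
    intro g _ _
    obtain ⟨x, hx⟩ := hX fun n => (g n).1
    obtain ⟨y, -, hy⟩ := isCompact_univ.ultrafilter_le_nhds
      (v.map fun n => (g n).2.down) (by simp)
    have hy' : Tendsto (fun n => (g n).2) v (𝓝 ⟨y⟩) := by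
      rw [Homeomorph.ulift.isInducing.tendsto_nhds_iff]
      exact hy
    exact ⟨(x, ⟨y⟩), hx.prodMk_nhds hy'⟩
  have h2 := h (X × ULift.{w} (Ultrafilter ℕ)) h1
  let g : ℕ → X × ULift.{w} (Ultrafilter ℕ) := fun n => (f n, ⟨pure n⟩)
  have hg : Function.Injective g := by
    intro m n hmn
    have : (pure m : Ultrafilter ℕ) = pure n := congrArg (fun x => x.2.down) hmn
    exact Ultrafilter.pure_injective this
  have hd : DiscreteTopology (range g) := by
    rw [discreteTopology_iff_isOpen_singleton]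
    rintro ⟨_, n, rfl⟩
    refine isOpen_induced_iff.2 ⟨(fun x : X × ULift.{w} (Ultrafilter ℕ) => x.2.down) ⁻¹'
      {w : Ultrafilter ℕ | {n} ∈ w}, (isOpen_mem {n}).preimage
        (Homeomorph.ulift.continuous.comp continuous_snd), ?_⟩
    ext ⟨_, m, rfl⟩
    simp only [mem_preimage, mem_ofPred_eq, mem_singleton_iff, Subtype.mk.injEq]
    constructor
    · intro hm
      have : m ∈ ({n} : Set ℕ) := hm
      rw [mem_singleton_iff.1 this]
    · intro hm
      have hmn : m = n := hg hm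
      rw [hmn]
      exact mem_singleton n
  obtain ⟨x, hx⟩ := h2 g hg hd
  exact ⟨x.1, (continuous_fst.tendsto x).comp hx⟩

/-- the Rudin–Keisler order is contained in `≤_C` -/
theorem c_of_rk {u v : Ultrafilter ℕ} {g : ℕ → ℕ} (h : v.map g = u) : LeC.{w} u v := by
  intro X _ _ hX f
  obtain ⟨x, hx⟩ := hX (f ∘ g)
  refine ⟨x, ?_⟩
  rw [← h]
  exact hx

/-- For every free `u` there is `v` with `u ≤_RF v` but not `v ≤_RF u`. -/
theorem exists_strict {u : Ultrafilter ℕ} (hu : ∀ n, u ≠ pure n) :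
    ∃ v, LeRF u v ∧ ¬ LeRF v u := by
  classical
  let f : ℕ → Ultrafilter ℕ := fun n => u.map fun k => Nat.pair n k
  have hfA : ∀ n, {x | (Nat.unpair x).1 = n} ∈ f n := by
    intro n
    have : (fun k => Nat.pair n k) ⁻¹' {x | (Nat.unpair x).1 = n} ∈ u := by
      have h1 : (fun k => Nat.pair n k) ⁻¹' {x | (Nat.unpair x).1 = n} = Set.univ := by
        ext k
        simp
      rw [h1]
      exact univ_mem
    exact this
  have hfA' : ∀ m n, {x | (Nat.unpair x).1 = n} ∈ f m → m = n := by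
    intro m n h
    have h1 := inter_mem h (hfA m)
    obtain ⟨x, hx1, hx2⟩ := (f m).nonempty_of_mem h1
    exact hx2.symm.trans hx1
  have hf : Function.Injective f := by
    intro m n hmn
    have := hfA n
    rw [← hmn] at this
    exact hfA' m n this
  have hd : DiscreteTopology (range f) := by
    rw [discreteTopology_iff_isOpen_singleton]
    rintro ⟨_, n, rfl⟩
    refine isOpen_induced_iff.2 ⟨{w : Ultrafilter ℕ | {x | (Nat.unpair x).1 = n} ∈ w},
      isOpen_mem _, ?_⟩
    ext ⟨_, m, rfl⟩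
    simp only [mem_preimage, mem_ofPred_eq, mem_singleton_iff, Subtype.mk.injEq]
    constructor
    · intro hm
      rw [hfA' m n hm]
    · intro hm
      have hmn : m = n := hf hm
      rw [hmn]
      exact hfA n
  obtain ⟨v, -, hv⟩ := isCompact_univ.ultrafilter_le_nhds (u.map f) (by simp)
  have hv' : Tendsto f u (𝓝 v) := hv
  refine ⟨v, ⟨f, hf, hd, hv'⟩, fun hrf => ?_⟩
  obtain ⟨g, hg⟩ := rk_of_rf hrf
  rw [tendsto_iff] at hv'
  -- the first coordinate maps `v` to `u`
  have h1 : v.map (fun x => (Nat.unpair x).1) = u := by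
    refine (Ultrafilter.eq_of_le ?_).symm
    intro C hC
    have hC' : (fun x => (Nat.unpair x).1) ⁻¹' C ∈ v := hC
    refine mem_of_superset (hv' _ hC') ?_
    intro n hn
    obtain ⟨x, hx1, hx2⟩ := (f n).nonempty_of_mem (inter_mem hn (hfA n))
    have hx2' : (Nat.unpair x).1 = n := hx2
    rw [← hx2']
    exact hx1
  have h2 : u.map (fun n => (Nat.unpair (g n)).1) = u := by
    have : u.map (fun n => (Nat.unpair (g n)).1) =
        (u.map g).map (fun x => (Nat.unpair x).1) := rfl
    rw [this, hg, h1]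
  have h3 := fix_of_map_eq h2
  -- so `v` lives on a graph
  have h4 : {x | ∃ n, g n = x ∧ (Nat.unpair x).1 = n} ∈ v := by
    rw [← hg]
    have : g ⁻¹' {x | ∃ n, g n = x ∧ (Nat.unpair x).1 = n} ∈ u :=
      mem_of_superset h3 fun n hn => ⟨n, rfl, hn⟩
    exact this
  have h5 := hv' _ h4
  obtain ⟨n, hn⟩ := u.nonempty_of_mem h5
  have h6 : (fun k => Nat.pair n k) ⁻¹' {x | ∃ n, g n = x ∧ (Nat.unpair x).1 = n} ∈ u := hn
  have h7 : (fun k => Nat.pair n k) ⁻¹' {x | ∃ n, g n = x ∧ (Nat.unpair x).1 = n} ⊆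
      {(Nat.unpair (g n)).2} := by
    rintro k ⟨m, hm, hm'⟩
    rw [Nat.unpair_pair] at hm'
    have : n = m := hm'
    subst this
    rw [mem_singleton_iff, hm]
    simp
  have h8 : ({(Nat.unpair (g n)).2} : Set ℕ) ∈ u := mem_of_superset h6 h7
  apply hu (Nat.unpair (g n)).2
  refine Ultrafilter.eq_of_le ?_
  intro A hA
  exact mem_of_superset h8 (singleton_subset_iff.2 hA)

theorem exists_free : ∃ u : Ultrafilter ℕ, ∀ n, u ≠ pure n := by
  refine ⟨hyperfilter ℕ, fun n h => ?_⟩
  have h1 : ({n} : Set ℕ) ∈ (pure n : Ultrafilter ℕ) := mem_singleton n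
  rw [← h] at h1
  exact (Set.finite_singleton n).notMem_hyperfilter h1

/-- **Answer to Q1.**  `≤_CF` is properly contained in `≤_C`.  If `u` is free and `u ≤_CF v` then
`v ≤_RF u`; the asserted inclusion `≤_RF ⊆ ≤_CF` fails, and `≤_CF ≠ ≤_RF`. -/
theorem result :
    ((∀ u v, LeCF.{w} u v → LeC.{w} u v) ∧ (∃ u v, LeC.{w} u v ∧ ¬ LeCF.{w} u v)) ∧
    (∃ u v, LeRF u v ∧ ¬ LeCF.{w} u v) ∧
    (∀ u v, (∀ n, u ≠ pure n) → LeCF.{w} u v → LeRF v u) := by
  obtain ⟨u, hu⟩ := exists_free
  obtain ⟨v, huv, hvu⟩ := exists_strict hu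
  have hncf : ¬ LeCF.{w} u v := fun h => hvu (rf_of_cf hu h)
  obtain ⟨g, hg⟩ := rk_of_rf huv
  exact ⟨⟨fun _ _ h => c_of_cf h, u, v, c_of_rk hg, hncf⟩, ⟨u, v, huv, hncf⟩,
    fun _ _ hu h => rf_of_cf hu h⟩

end Pool.Agent.Results.MP_254ca6_gt.ComfortFrolik
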